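import Pool.Agent.H20.KG.FinG
import Pool.Agent.H20.KG.Uni

/-!
MP_0cd237_al: every finite Galois extension of `k(T)` of degree prime to `N`, over a field which
contains `M_r^2`.

Let `F = k(x_1, …, x_n)`, `N` a prime different from the characteristic, `δ, s ≥ 0`.  An automorphism
`g` of `K` over `F` is `δ`-inert if `K` has a valuation ring `B` such that `g b - b` is in the maximal
ideal of `B` for all `b` in `B`, and all nonzero polynomials in `x_1, …, x_n` over `k` of total degree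
at most `δ` are units of `B` (`RS.InertG`, `RS.Gnr`).  Let `F_(s,δ)` be the field of all `z ∈ K` such
that, for some `e` prime to `N`, `g ^ (e * N ^ s)` fixes `z` for all `δ`-inert `g`
(`RS.FG k x δ N s`).  The union over `s` of the `F_(s,δ)` is `K`, and so is the union over `δ` of the
`F_(0,δ)`.  The field `F_(s,δ)` contains all algebraic functions of one rational function `P / Q` of
`x_1, …, x_n` with `P`, `Q` of degree at most `δ`.  Let `M'` be the compositum of all
`[t_1, …, t_r]` with `t_1, …, t_r ∈ F_(s,δ)` (`RS.MG k x δ N s r`).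

Let `1 ≤ r < m ≤ n`, and `δ = 0` or `m < n`, `N ≠ 2`.  There are `X_1, …, X_m ∈ F` (`X_j = x_j` for
`δ = 0`) such that the following holds for all `y_j ^ (N ^ (s + 1)) = X_j`, `w_j ^ N = 1 + y_j`
(`j ≤ m`): every finite Galois extension `E` of `k(T)` of degree prime to `N` embeds in `K` over `k`
with `T ↦ y_i ^ N + w_1 ⋯ w_m`, and every such embedding has image in `M_1^3 ∩ M_m^2` and is disjoint
from `M'`, with its full Galois group.
-/

namespace Pool.Agent.Results.MP_0cd237_al.FiniteGroups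

open IntermediateField

universe u

theorem result {k K : Type*} [Field k] [IsAlgClosed k] [Field K] [IsAlgClosed K] [Algebra k K]
    {n : ℕ} (x : Fin n → K) (hx : IsTranscendenceBasis k x) (r m : ℕ) (hr : 1 ≤ r)
    (hrm : r < m) (hmn : m ≤ n) (N : ℕ) (hN : N.Prime) (hNk : (N : k) ≠ 0) (s δ : ℕ)
    (hδ : δ = 0 ∨ (m < n ∧ N ≠ 2)) :
    -- `M'` contains `M_r^2`
    ALG.M k x r 2 ≤ RS.MG k x δ N s r ∧
    -- `K` is the union over `s` of the `F_(s,δ)`, and the union over `δ` of the `F_(0,δ)`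
    (∀ z : K, (∃ a, z ∈ RS.FG k x δ N a) ∧ ∃ b, z ∈ RS.FG k x b N 0) ∧
    -- `F_(s,δ)` contains the algebraic functions of a rational function of degree at most `δ`
    (∀ P Q : MvPolynomial (Fin n) k, P.totalDegree ≤ δ → Q.totalDegree ≤ δ →
      ALG.bracket (fun _ : Fin 1 => MvPolynomial.aeval x P / MvPolynomial.aeval x Q) ≤
        RS.FG k x δ N s) ∧
    -- the theorem
    ∃ X : Fin m → K, (∀ j, X j ∈ adjoin k (Set.range x)) ∧
      (δ = 0 → ∀ j, X j = x (Fin.castLE hmn j)) ∧
      ∀ (y w : Fin m → K), (∀ j, y j ^ (N ^ (s + 1)) = X j) → (∀ j, w j ^ N = 1 + y j) →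
      ∀ (i : Fin m) (E : Type u) [Field E] [Algebra k E] [Algebra (RatFunc k) E]
        [IsScalarTower k (RatFunc k) E] [FiniteDimensional (RatFunc k) E]
        [IsGalois (RatFunc k) E],
        Nat.Coprime (Module.finrank (RatFunc k) E) N →
        (∃ τ : E →ₐ[k] K, RS.imT τ = y i ^ N + ∏ j, w j) ∧
        ∀ τ : E →ₐ[k] K, RS.imT τ = y i ^ N + ∏ j, w j →
          RS.imT τ ∈ ALG.M k x 1 2 ∧
          (∀ v : E, τ v ∈ ALG.M k x 1 3 ∧ τ v ∈ ALG.M k x m 2) ∧
          (∀ v : E, τ v ∈ RS.MG k x δ N s r ↔ v ∈ Set.range (algebraMap (RatFunc k) E)) ∧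
          ∀ σ : Gal(E/RatFunc k), ∃ g ∈ (RS.MG k x δ N s r).fixingSubgroup,
            ∀ v : E, τ (σ v) = g (τ v) := by
  refine ⟨?_, fun z => ⟨?_, RS.exists_mem_genS hx N z⟩,
    fun P Q hP hQ => RS.bracket_le_genS' x δ N s P Q hP hQ, ?_⟩
  · rw [RS.M_eq_comp]
    exact RS.comp_mono ((RS.le_ramS N s _).trans (RS.ramS_le_genS x δ N s)) r
  · haveI : Algebra.IsAlgebraic (adjoin k (Set.range x)) K := hx.isAlgebraic_field
    obtain ⟨a, ha⟩ := RS.exists_mem_priS hN (adjoin k (Set.range x)) z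
    exact ⟨a, RS.ramS_le_genS x δ N a (RS.priS_le_ramS N a _ ha)⟩
  · exact RS.main_all_genS hmn hx hr hrm hN hNk δ s hδ

end Pool.Agent.Results.MP_0cd237_al.FiniteGroups
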