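import Pool.Agent.H20.PX.Fin
import Pool.Agent.H20.PX.Gal2
import Pool.Agent.H20.PK.Fg

/-!
MP_0cd237_al: Hilbert's 13th problem for `p`-extensions in characteristic `p`.

`k`, `K` algebraically closed of characteristic `p > 0`, `x_1, …, x_n` (`n ≥ 1`) a transcendence
basis of `K` over `k`.  For a field `k ≤ F ≤ K` let `P(F)` be the least field containing `F` and
closed in `K` under solving `y ^ p - y = a`, i.e. (first part) the union of all finite Galois
extensions of `F` of `p`-power degree.  Then `P(F)` is the sum of the `F · P(k(T))`, `T ∈ F`;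
`P(M_r^s) ≤ M_r^(s+1)`; the analogues `P_r^s` of the `M_r^s` for `p`-extensions are exactly two
fields.  For every finite extension `T` of `k(x)` and `r < m ≤ n` there is `W ∈ M_1^2 ∩ M_m^2` such
that no root of `y ^ p - y = W` lies in a field obtained from the compositum of the `[t_1, …, t_r]`,
`t_i ∈ T` (`RS.comp T r`) by radicals and equations of degree less than `p`; in particular
`P(M_1^2)` is not contained in `M_(n-1)^2`.
-/

namespace Pool.Agent.Results.MP_0cd237_al.PExtensions

open ALG PX IntermediateField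

theorem result (p : ℕ) [Fact p.Prime] {k K : Type*} [Field k] [IsAlgClosed k] [CharP k p]
    [Field K] [IsAlgClosed K] [Algebra k K] {n : ℕ} (hn : 1 ≤ n) (x : Fin n → K)
    (hx : IsTranscendenceBasis k x) :
    -- `P(F)` is the union of the finite Galois extensions of `F` of `p`-power degree
    (∀ (F : IntermediateField k K) (e : K), e ∈ pcl p F ↔ ∃ E : IntermediateField F K,
      FiniteDimensional F E ∧ IsGalois F E ∧ (∃ s, Module.finrank F E = p ^ s) ∧ e ∈ E) ∧
    -- (1) one-variable form
    (∀ (F : IntermediateField k K) (e : K), e ∈ pcl p F ↔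
      ∃ (N : ℕ) (c T z : Fin N → K), (∀ i, c i ∈ F) ∧ (∀ i, T i ∈ F) ∧
        (∀ i, z i ∈ pcl p (adjoin k {T i})) ∧ e = ∑ i, c i * z i) ∧
    -- (2) `p`-extensions cost one step and one variable
    (∀ r s, 1 ≤ r → 1 ≤ s → pcl p (M k x r s) ≤ M k x r (s + 1)) ∧
    -- (3) the `p`-analogues of the fields `M_r^s` are exactly two distinct fields
    ((∀ r, PM p k x r 1 = adjoin k (Set.range x)) ∧
      (∀ r s, 1 ≤ r → 2 ≤ s → PM p k x r s = pcl p (adjoin k (Set.range x))) ∧
      adjoin k (Set.range x) ≠ pcl p (adjoin k (Set.range x))) ∧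
    -- (4) one step of degree `p` over `M_1^2`
    (∀ r m : ℕ, 1 ≤ r → r < m → m ≤ n → ∀ T : IntermediateField k K,
      adjoin k (Set.range x) ≤ T → T.FG →
      ∃ W : K, W ∈ M k x 1 2 ∧ W ∈ M k x m 2 ∧
        ∀ e : K, e ^ p - e = W → ∀ d < p, ∀ L : IntermediateField k K,
          Tower d (RS.comp T r) L → e ∉ L) := by
  have : CharP K p := charP_of_injective_algebraMap (algebraMap k K).injective p
  exact ⟨mem_pcl_iff_galois p, mem_pcl_iff p, fun r s hr hs => pcl_M_le p x hr s hs,
    ⟨fun _ => rfl, fun r s hr hs => PM_eq p x hr hs, ne_pcl p hx hn⟩,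
    fun r m hr1 hr hmn T hFT hT => RS.sharp_FG p hmn hx hr1 hr hFT hT⟩

end Pool.Agent.Results.MP_0cd237_al.PExtensions
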