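import Pool.Agent.H20.KG.Fin
import Pool.Agent.H20.KG.Uni

/-!
MP_0cd237_al: separation of the fields `M_r^s`, sandwich form; no algebraic analogue of
Kolmogorov's superposition theorem in at least three variables.

Let `F = k(x_1, …, x_n)` and `s, δ ≥ 0`.  An automorphism `g` of `K` over `F` is `δ`-inert if `K` has a
valuation ring `B` such that `g b - b` is in the maximal ideal of `B` for all `b` in `B`, and all
nonzero polynomials in `x_1, …, x_n` over `k` of total degree at most `δ` are units of `B`
(`RS.InertG`, `RS.Gnr`).  Let `F_(s,δ)` be the field of all `z ∈ K` such that, for some `e` prime to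
`N`, `g ^ (e * N ^ s)` fixes `z` for all `δ`-inert `g` (`RS.FG k x δ N s`).  The union over `s` of the
`F_(s,δ)` is `K`, and so is the union over `δ` of the `F_(0,δ)`.  The field `F_(s,δ)` contains all
algebraic functions of one rational function `P / Q` of `x_1, …, x_n` with `P`, `Q` of degree at most
`δ` and, if `δ ≥ 1`, all roots in `K` of every polynomial `A` over `k[x_1, …, x_n]` whose leading
coefficient and some nonzero `D ∈ k[x_1, …, x_n]` in the ideal `(A, A')` have degree at most `δ`.
Let `M'` be the compositum of all `[t_1, …, t_r]` with `t_1, …, t_r ∈ F_(s,δ)`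
(`RS.MG k x δ N s r`); it contains `M_r^2`.

Let `1 ≤ r < m ≤ n`, and `δ = 0` or `m < n`, let `q < N` be primes with `5 ≤ q` and `N` different from
the characteristic, and `d < q`.  There is an element `e ∈ M_1^3 ∩ M_m^2` which lies in no field
obtained from `M'` by a finite tower of adjunctions of arbitrary radicals and of roots of polynomials
of degree at most `d`.
-/

namespace Pool.Agent.Results.MP_0cd237_al.Sandwich

open IntermediateField Polynomial

theorem result {k K : Type*} [Field k] [IsAlgClosed k] [Field K] [IsAlgClosed K] [Algebra k K]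
    {n : ℕ} (x : Fin n → K) (hx : IsTranscendenceBasis k x) (r m : ℕ) (hr : 1 ≤ r)
    (hrm : r < m) (hmn : m ≤ n) (d q N : ℕ) (hq : q.Prime) (hq5 : 5 ≤ q) (hdq : d < q)
    (hqN : q < N) (hN : N.Prime) (hNk : (N : k) ≠ 0) (s δ : ℕ) (hδ : δ = 0 ∨ m < n) :
    -- `M'` contains `M_r^2`
    ALG.M k x r 2 ≤ RS.MG k x δ N s r ∧
    -- `K` is the union over `s` of the `F_(s,δ)`, and the union over `δ` of the `F_(0,δ)`
    (∀ z : K, (∃ a, z ∈ RS.FG k x δ N a) ∧ ∃ b, z ∈ RS.FG k x b N 0) ∧
    -- `F_(s,δ)` contains the algebraic functions of a rational function of degree at most `δ`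
    (∀ P Q : MvPolynomial (Fin n) k, P.totalDegree ≤ δ → Q.totalDegree ≤ δ →
      ALG.bracket (fun _ : Fin 1 => MvPolynomial.aeval x P / MvPolynomial.aeval x Q) ≤
        RS.FG k x δ N s) ∧
    -- and the algebraic functions with leading coefficient and discriminant of degree at most `δ`
    (1 ≤ δ → ∀ (A U V : (MvPolynomial (Fin n) k)[X]) (D : MvPolynomial (Fin n) k),
      A.leadingCoeff.totalDegree ≤ δ → D ≠ 0 → D.totalDegree ≤ δ →
      U * A + V * derivative A = C D → ∀ z : K,
      eval₂ (MvPolynomial.aeval x : MvPolynomial (Fin n) k →ₐ[k] K).toRingHom z A = 0 →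
        z ∈ RS.FG k x δ N s) ∧
    -- the theorem
    ∃ e : K, e ∈ ALG.M k x 1 3 ∧ e ∈ ALG.M k x m 2 ∧
      ∀ L : IntermediateField k K, ALG.Tower d (RS.MG k x δ N s r) L → e ∉ L := by
  refine ⟨?_, fun z => ⟨?_, RS.exists_mem_genS hx N z⟩,
    fun P Q hP hQ => RS.bracket_le_genS' x δ N s P Q hP hQ, ?_, ?_⟩
  · rw [RS.M_eq_comp]
    exact RS.comp_mono ((RS.le_ramS N s _).trans (RS.ramS_le_genS x δ N s)) r
  · haveI : Algebra.IsAlgebraic (adjoin k (Set.range x)) K := hx.isAlgebraic_field
    obtain ⟨a, ha⟩ := RS.exists_mem_priS hN (adjoin k (Set.range x)) z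
    exact ⟨a, RS.ramS_le_genS x δ N a (RS.priS_le_ramS N a _ ha)⟩
  · exact fun h1 A U V D hA hD hDd hUV z hz => RS.mem_genS_of_disc h1 N s A U V D hA hD hDd hUV hz
  · exact RS.sandwich_all hmn hx hr hrm hq hdq hq5 hqN hN hNk δ s hδ

end Pool.Agent.Results.MP_0cd237_al.Sandwich
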