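import Pool.Agent.H2.HER.Stmt

/-!
MP_0cd237_al: how the chain of the fields `M_r^s(n; k)` depends on `n`, on the field of constants `k`
and on its characteristic.

`ALG.M k x r s` is `M_r^s` (for `s ≥ 1`; the value at `s = 0` is that at `s = 1`),
`HER.MU k x r` is `M_r`, and `ALG.bracket t` is `[t_1, …, t_r]`.

Heredity: if `k ≤ k'` are algebraically closed and `m ≤ n`, then the elements of `M_r^s(n; k')`
algebraic over `k(x_1, …, x_m)` are those of `M_r^s(m; k)`.

Places: let `E` be algebraically closed (of any characteristic) and `A` a valuation ring of `E` with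
residue field `k`.  There is a place `ρ` of `K_n(E)` onto `K_n(k)` which extends that of `A`, with
`ρ(x_i) = x_i` and `M_r^s(n; k) ⊆ ρ(M_r^s(n; E)) ⊆ M_r^(2s-1)(n; k) ∪ ∞` for all `r, s ≥ 1`; if `k` has
characteristic zero, then `ρ(M_r^s(n; E)) = M_r^s(n; k) ∪ ∞`.  So `ρ` maps `M_r(n; E)` onto `M_r(n; k)`
and `∞`, and each of the equalities `M_r(n; E) = M_(r')(n; E)` (or `M_r^j(n; E) = M_r^s(n; E)` for all
`j ≥ s`) implies `M_r(n; k) = M_(r')(n; k)` (or `M_r^j(n; k) = M_r^(2s-1)(n; k)` for all `j ≥ 2s-1`).

1. For every algebraically closed `k` the truth of `M_r = M_{r'}` does not depend on `n ≥ r, r'`.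
2. For every characteristic `p` there are `c = c(p) ∈ {1, 2, …, ∞}`, with `c(p) ≤ c(0)`, and
   `N, d : ℕ → ℕ` such that, for every algebraically closed field `k` of characteristic `p`: for
   `r ≥ 1` and every `n ≥ N r` one has `M_r(n; k) = K_n(k)` if and only if `c ≤ r`; for every `n ≥ 1`
   one has `M_r = M_n` for `c ≤ r ≤ n`, and there are at most `min n c` distinct fields among
   `M_1, …, M_n`; if `k` contains `d n` elements algebraically independent over its prime field, then
   for `r < r' ≤ n` one has `M_r = M_{r'}` exactly if `c ≤ r`, and there are exactly `min n c`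
   distinct fields.
3. Inclusions among the `M_r^s` for `(n, k)` hold for `(m, k')` as well, if `m ≤ n`, `k` and `k'`
   have the same characteristic and `k` has infinite transcendence degree over its prime field or
   `k'` embeds into `k`; so there are at least as many distinct `M_r^s` for `(n, k)` as for
   `(m, k')`.
4. If `m ≤ n`, `C` has characteristic zero and infinite transcendence degree over its prime field
   and `k` has characteristic `p > 0`, then `M_r^s ⊆ M_(r')^(s')` for `(n, C)` implies
   `M_r^s ⊆ M_(r')^(2s'-1)` for `(m, k)`; if there are finitely many `M_r^s` for `(n, C)`, there are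
   finitely many for `(m, k)`.
-/

namespace Pool.Agent.Results.MP_0cd237_al.Threshold

open IntermediateField Pool.Agent.H2.HER

universe u v w z

theorem result : Heredity.{u, v, w} ∧ Places.{w, z} ∧ IndepOfN.{u, v, z} ∧ Thresholds.{u, v, w} ∧
    ConstDescent.{u, v, w, z} ∧ CharDescent.{u, v, w, z} :=
  ⟨heredity_holds, places_holds, indepOfN_holds, thresholds_holds, constDescent_holds,
    charDescent_holds⟩

end Pool.Agent.Results.MP_0cd237_al.Threshold
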